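import Pool.Agent.H99.HC.Plane

/-!
# The Harborth constant of `ZMod p × ZMod p` for the primes `11 ≤ p ≤ 43`

For every prime `p` with `11 ≤ p ≤ 43` the largest subset of `ZMod p × ZMod p` in which no `p`
distinct elements have sum zero has `2 p - 2` elements.

Proof of the upper bound.  Let `S` have `2 p - 1` points.  One of the `p + 1` directions has
fibres of sizes `h_c` with `∑ h_c ^ 2 ≥ 6 p - 9`.  It is enough to find `t_c ≤ h_c` with
`∑ t_c = p`, `∑ t_c c = 0` and `∑ t_c (h_c - t_c) ≥ p - 1`: the sums of `t_c` elements of the
fibres then fill the kernel of the projection (Dias da Silva-Hamidoune and Cauchy-Davenport).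
The vector `t` is found by the same theorems applied to the layers of `h - 2 r`, where `r_c`
pairs of the fibre over `c` are reserved.
-/

namespace Pool.Agent.Results.MP_1c09d5_co.HarborthConstant

open Finset

/-- no `h` pairwise distinct elements of `A` have sum `0` -/
def WeaklyZeroSumFree {G : Type*} [AddCommGroup G] (h : ℕ) (A : Finset G) : Prop :=
  ∀ T ⊆ A, T.card = h → ∑ x ∈ T, x ≠ 0

theorem upper (p : ℕ) [Fact p.Prime] (hpl : p ∈ Pool.Agent.H99.HC.PL)
    (A : Finset (ZMod p × ZMod p)) (hA : WeaklyZeroSumFree p A) : A.card ≤ 2 * p - 2 := by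
  by_contra hcon
  push Not at hcon
  obtain ⟨S, hS1, hS2⟩ := Finset.exists_subset_card_eq (s := A) (n := 2 * p - 1) (by omega)
  obtain ⟨T, hT1, hT2, hT3⟩ := Pool.Agent.H99.HC.main hpl S (by
    rw [hS2]
    have := (Fact.out : p.Prime).pos
    omega)
  exact hA T (hT1.trans hS1) hT2 hT3

theorem lower (p : ℕ) [Fact p.Prime] :
    ∃ A : Finset (ZMod p × ZMod p), A.card = 2 * p - 2 ∧ WeaklyZeroSumFree p A := by
  classical
  have hp2 := (Fact.out : p.Prime).two_le
  have : Fact (1 < p) := ⟨hp2⟩
  refine ⟨((univ : Finset (ZMod p)).erase 0) ×ˢ ({0, 1} : Finset (ZMod p)), ?_, ?_⟩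
  · rw [card_product, card_erase_of_mem (mem_univ _), Finset.card_univ, ZMod.card,
      card_pair zero_ne_one]
    omega
  · intro T hT hTc h0
    -- the number of points with second coordinate `1` is `0` modulo `p`
    have hsnd : ∀ x ∈ T, x.2 = 0 ∨ x.2 = 1 := by
      intro x hx
      have := hT hx
      rw [mem_product] at this
      simpa using this.2
    have hfst : ∀ x ∈ T, x.1 ≠ 0 := by
      intro x hx
      have := hT hx
      rw [mem_product, mem_erase] at this
      exact this.1.1
    have hcount : (((T.filter (fun x => x.2 = 1)).card : ℕ) : ZMod p) = 0 := by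
      have h1 : ∑ x ∈ T, x.2 = 0 := by
        have := congrArg Prod.snd h0
        rwa [Prod.snd_sum] at this
      rw [Finset.card_filter, Nat.cast_sum]
      rw [← h1]
      refine Finset.sum_congr rfl fun x hx => ?_
      rcases hsnd x hx with h | h
      · rw [h]; simp
      · rw [h]; simp
    rw [ZMod.natCast_eq_zero_iff] at hcount
    -- a line contains at most `p - 1` points
    have hline : ∀ b : ZMod p, (T.filter (fun x => x.2 = b)).card ≤ p - 1 := by
      intro b
      have : (T.filter (fun x => x.2 = b)).card ≤ ((univ : Finset (ZMod p)).erase 0).card := by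
        refine Finset.card_le_card_of_injOn Prod.fst ?_ ?_
        · intro x hx
          have hx' := Finset.mem_coe.1 hx
          rw [mem_filter] at hx'
          exact Finset.mem_coe.2 (mem_erase.2 ⟨hfst x hx'.1, mem_univ _⟩)
        · intro x hx y hy h
          have hx' := (mem_filter.1 (Finset.mem_coe.1 hx)).2
          have hy' := (mem_filter.1 (Finset.mem_coe.1 hy)).2
          exact Prod.ext h (hx'.trans hy'.symm)
      rwa [card_erase_of_mem (mem_univ _), Finset.card_univ, ZMod.card] at this
    have hsplit : (T.filter (fun x => x.2 = 1)).card + (T.filter (fun x => x.2 = 0)).card =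
        p := by
      refine Eq.trans ?_ hTc
      rw [← Finset.card_union_of_disjoint]
      · congr 1
        ext x
        simp only [mem_union, mem_filter]
        constructor
        · rintro (h | h)
          · exact h.1
          · exact h.1
        · intro hx
          rcases hsnd x hx with h | h
          · exact Or.inr ⟨hx, h⟩
          · exact Or.inl ⟨hx, h⟩
      · rw [Finset.disjoint_left]
        intro x hx hy
        rw [mem_filter] at hx hy
        exact zero_ne_one (hy.2.symm.trans hx.2)
    have l1 := hline 1
    have l0 := hline 0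
    rcases Nat.eq_zero_or_pos (T.filter (fun x => x.2 = 1)).card with h | h
    · omega
    · have := Nat.le_of_dvd h hcount
      omega

/-- **Theorem.** For every prime `p` with `11 ≤ p ≤ 43` the largest size of a subset of
`ZMod p × ZMod p` in which no `p` distinct elements have sum `0` is `2 p - 2`. -/
theorem result : ∀ p : ℕ, p.Prime → 11 ≤ p → p ≤ 43 →
    IsGreatest {n : ℕ | ∃ A : Finset (ZMod p × ZMod p), A.card = n ∧ WeaklyZeroSumFree p A}
      (2 * p - 2) := by
  intro p hp h1 h2
  have : Fact p.Prime := ⟨hp⟩
  have hpl : p ∈ Pool.Agent.H99.HC.PL := by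
    simp only [Pool.Agent.H99.HC.PL, List.mem_cons, List.not_mem_nil, or_false]
    interval_cases p <;> first | omega | (exfalso; revert hp; decide)
  refine ⟨lower p, ?_⟩
  rintro n ⟨A, rfl, hA⟩
  exact upper p hpl A hA

end Pool.Agent.Results.MP_1c09d5_co.HarborthConstant
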